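import Pool.Agent.U192.PN.Img
import Pool.Agent.TH466.QG.Low

/-!
# Weak nonvanishing for pairs: the Kodaira dimension of `K_W + Δ` for the images `W` of a variety

Let `f : V ⇢ W` be a dominant rational map of finite degree of complex projective varieties, and let
`Δ` be an `ℝ`-divisor on `W` (for instance the boundary of a log canonical pair; `δ P` is the
multiplicity at the prime divisor `P` over `W`, i.e. `- a(P, W, Δ)` or `max (0, - a(P, W, Δ))`). Let
`R` be the ramification divisor of `f`, so that `f^* (K_W + Δ) = K_V + f^* Δ - R` on all models. The
ramification divisor is not bounded in terms of `V` and the degree of `f`: for the quotients of `ℙ²` by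
the de Jonquières involutions, `deg f = 2` and `R` contains curves of arbitrary degree and genus. The
following theorem shows that, as far as the Kodaira dimension of `K_W + Δ` is concerned, it can be
replaced by a divisor which depends only on the degrees.

Let `V` be mapped birationally into a product of projective spaces by the rational maps
`V ⇢ ℙ^{N i}`, `i < k`, and let `H i` be the pull-back of a hyperplane. Let `W_i` be the image of `V`
in `W × ℙ^{N 0} × ... × ℙ^{N (i - 1)}` and `δ i` the degree of `W_{i + 1}` over `W_i`. So the product
of all `δ i` is the degree of `f`, and for `k = 1` the number `δ 0` is this degree. Then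

  `κ(W, K_W + Δ) ≥ κ(V, K_V + f^* Δ - 2 ∑ (δ i - 1) H i)`.

In particular, if a positive multiple of `K_V + f^* Δ - 2 ∑ (δ i - 1) H i` has a nonzero section,
then `K_W + Δ` is `ℝ`-linearly equivalent to an effective divisor; and `K_W + Δ` is big if
`K_V + f^* Δ - 2 ∑ (δ i - 1) H i` is big. So weak nonvanishing holds for the pair `(W, Δ)`, and for all
pairs with a model of `W` and multiplicities at least `δ`.

Examples. Let `V` be a smooth hypersurface of degree `D` in `ℙ^{n + 1}`, and suppose that
`f^* Δ ≥ t H` for a real number `t ≥ 0`. If `D + t ≥ n + 2 deg f` then `K_W + Δ` is effective. For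
`V = ℙ^n` itself: if `f : ℙ^n ⇢ W` has degree `δ` and `f^* Δ ≥ (n + 1 + 2 (δ - 1)) H` then `K_W + Δ` is
effective. If `V` is the product of hypersurfaces `V i ⊆ ℙ^{n i + 1}` of degree `D i` and
`f^* Δ ≥ ∑ t i H i` then it is enough that `D i + t i ≥ n i + 2 δ i` for all `i`, which is a condition
on the degrees `δ i` only. (The examples are not part of the Lean proof.)

Here `V` does not need to have canonical forms, `f` does not need to be a Galois cover or to be
compatible with the products, and the multiplicities of `Δ` can be arbitrary real numbers.

Proof. Let `θ` be a section of `m (K_V + f^* Δ - 2 ∑ (δ i - 1) H i)`. The norm of `θ` from the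
function field of `V` to the one of `W`, multiplied by a power of the discriminant of a basis of
monomials of degree at most `δ i - 1` in the coordinates of the `i`-th map, is a section of a multiple
of `K_W + Δ`. A vector field on `W` which annihilates the ratios of these norms annihilates the norms of
`c - x` for all `c ∈ ℂ` and all ratios `x` of the forms on `V`, hence it annihilates `x`.
-/

set_option autoImplicit false
set_option linter.overlappingInstances false

open FF Module Pool.Agent.W602.GT
open Pool.Agent.Y174 (PairSec PairKod)

namespace Pool.Agent.Results.MP_66b48b_ag.KodairaOfImages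

/-- The order of the poles along `Q` of the functions in the finite set `Y`: the multiplicity along `Q`
of the pull-back of a hyperplane under the rational map with the coordinates `1` and `Y`. -/
noncomputable def poleOrder {L : Type} [Field L] [Algebra ℂ L] (Y : Finset L) (Q : Place ℂ L) : ℕ :=
  Y.sup fun z => (-Q.ord z).toNat

/-- The function field of the image `W_j` of `V` in the product of `W` and the first `j` projective
spaces. `K` and `L` are the function fields of `W` and `V`, and `X i` is the set of the affine
coordinates of the `i`-th rational map. -/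
def Img {L : Type} [Field L] (K : Type) [Field K] [Algebra K L] {k : ℕ} (X : Fin k → Finset L)
    (j : ℕ) : IntermediateField K L :=
  IntermediateField.adjoin K {z | ∃ i : Fin k, i.val < j ∧ z ∈ X i}

/-- The degree `δ i` of `W_{i + 1}` over `W_i`. -/
noncomputable def deg {L : Type} [Field L] (K : Type) [Field K] [Algebra K L] {k : ℕ}
    (X : Fin k → Finset L) (i : Fin k) : ℕ :=
  finrank (Img K X i) (IntermediateField.adjoin (Img K X i) (X i : Set L))

/-- `Q` lies over `P` with the ramification index `e`. -/
def LiesOver {K L : Type} [Field K] [Field L] [Algebra ℂ K] [Algebra ℂ L] [Algebra K L]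
    (Q : Place ℂ L) (P : Place ℂ K) (e : ℕ) : Prop :=
  0 < e ∧ ∀ f : K, Q.ord (algebraMap K L f) = e * P.ord f

/-- `θ` is a section of `m (K_V + f^* Δ) - H`, where `H` has the multiplicity `b Q` at `Q`: if `Q` lies
over the prime divisor `P` over `W` with the ramification index `e`, so that the multiplicity of
`f^* Δ` at `Q` is `e δ P`, then the order of the `m`-canonical form `θ` along `Q` is at least
`b Q - m e δ P`. -/
def IsSection {K L : Type} [Field K] [Field L] [Algebra ℂ K] [Algebra ℂ L] [Algebra K L]
    (δ : Place ℂ K → ℝ) (n m : ℕ) (b : Place ℂ L → ℤ)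
    (θ : (Fin n → Derivation ℂ L L) → L) : Prop :=
  IsPluri m θ ∧
  ∀ (P : Place ℂ K) (Q : Place ℂ L) (e : ℕ), LiesOver Q P e → Divisorial n Q →
    ∀ G : Fin n → Derivation ℂ L L, (∀ i, DerReg Q (G i)) → θ G = 0 ∨
      (b Q : ℝ) ≤ Q.ord (θ G) + m * e * δ P

/-- **The Kodaira dimension of `K_W + Δ`.** Let `L` be the function field of a variety `V` of dimension
`n`, generated by the finitely many coordinates in the sets `X i`. Let `K ⊆ L` be the function field of
a variety `W`, the extension being finite, and `Δ` a divisor with the (real) multiplicity `δ P` at each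
prime divisor `P` over `W`. Suppose that there are sections `θ 0, ..., θ a` of
`m (K_V + f^* Δ - 2 ∑ (δ i - 1) H i)` whose ratios are algebraically independent (for `a = 0`: that
there is a section `θ 0 ≠ 0`). Then `κ(K_W + Δ) ≥ a`. -/
theorem result {L : Type} [Field L] [Algebra ℂ L] [Algebra.EssFiniteType ℂ L] {n m k a : ℕ}
    (hL : Algebra.trdeg ℂ L = n) (X : Fin k → Finset L)
    (hX : IntermediateField.adjoin ℂ (⋃ i, (X i : Set L)) = ⊤)
    (K : Type) [Field K] [Algebra ℂ K] [Algebra K L] [IsScalarTower ℂ K L] [FiniteDimensional K L]
    (δ : Place ℂ K → ℝ) (hm : 1 ≤ m) (θ : Fin (a + 1) → (Fin n → Derivation ℂ L L) → L)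
    (hθ : ∀ j, IsSection δ n m
      (fun Q => ∑ i, 2 * m * ((deg K X i : ℤ) - 1) * poleOrder (X i) Q) (θ j))
    (D : Fin n → Derivation ℂ L L) (hD : θ 0 D ≠ 0)
    (hind : AlgebraicIndependent ℂ fun j : Fin a => θ j.succ D / θ 0 D) :
    PairKod ℂ K n δ a := by
  have hK : Algebra.EssFiniteType ℂ K := Pool.Agent.TH466.QG.ess_below (K := L)
  exact U192.PN.kod_img hm hL X hX (fun j => (hθ j).1) (fun j => (hθ j).2) hD hind

end Pool.Agent.Results.MP_66b48b_ag.KodairaOfImages
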