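import Pool.Agent.U189.MG.Ext

/-!
# Real pseudo-effective classes are effective on the toroidal models of covers branched along normal
# crossing hypersurfaces

**The varieties.** Let `F k`, `k = 0, ..., n`, be forms of degrees `d k` in `n + 1` variables whose
zero sets in the projective `n`-space are smooth hypersurfaces with normal crossings, `Y` a normal
abelian cover of the projective space which is branched only along these hypersurfaces, and `X` the
toroidal modification of `Y` which is given by `fan` (see `Pool/Agent/U189/ND/Defs.lean`, where the
definitions `NormalCrossings`, `Admissible`, `InCone`, `IsFan`, `affine`, `minimalOrder`,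
`multiplicities` and `coefficient` are explained). `D 1, ..., D p` are toroidal `ℚ`-Cartier divisors on
`X`; the coefficients of their pullbacks at the prime divisors `P` over `X` are the `δ i P`. `X` can be
any toroidal modification which is a projective (or only a complete) variety; no combination of the
`D i` is assumed to be ample.

**The pairs.** Let `(X, Δ)` be a pair, `Δ` an effective `ℝ`-divisor, such that `K_X + Δ` is a real combination
`∑ i, w i * D i`. For instance `(X, Δ)` is a toroidal log canonical pair with real coefficients: `Δ` is a
combination with real coefficients in `[0, 1]` of the prime divisors of the boundary of `X` (`K_X` plus the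
reduced boundary of `X` is `∑ k, d k - (n + 1)` times the hyperplane class), and `K_X + Δ` is `ℝ`-Cartier.
If `n ≥ 3`, if every generator of a ray has at most `n - 1` positive coordinates and if the `D i` generate
the toroidal divisors of a `ℚ`-factorial `X`, then every pair on `X` has such a class (Lefschetz; this
remark is not used and not proved here).

**Pseudo-effective combinations.** `IsPseudoeffectiveUpTo`: there is a divisor `A` on a model of `X`,
generated by finitely many rational functions, such that for every `M ≥ 1` the combination
`w + A / M` is effective, up to a change of the coefficients by at most `1 / M`. All pseudo-effective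
combinations have this property: take an ample `A` such that also `A ± D i` are ample.

**The theorem.** The cone of the pseudo-effective real combinations is spanned by finitely many integral
combinations which have nonzero sections. So for all pairs `(X, Δ)` as above with `K_X + Δ` pseudo-effective,
`K_X + Δ` is `ℝ`-linearly equivalent to the effective divisor `∑ b, t b * div (s b)`, where
`w = ∑ b, t b * h b`, `t b ≥ 0`, and `s b` is a section of `h b`. There is no condition on the degrees
`d k`, and `K_X + Δ` need not be big or nef, nor `Δ` big.

The case of the `K_X + Δ` with rational coefficients of toroidal log canonical pairs is in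
`MP_badc2d_ag.NormalCrossingPairs` (with another proof, which does not give the real case: the
pseudo-effective cone could be irrational); the case that some combination of the `D i` is ample is in
`MP_c1e25c_ag.NormalCrossingModels` (with the limits of effective combinations of the `D i` as the
pseudo-effective classes).

**Proof.** The Cox ring of the `D i` together with the hyperplane class `H` is finitely generated
(`Pool/Agent/U189/NF`), so the effective cone of these classes is closed. A finite set of rational
functions has order at least `- E * H - div g` for some number `E` and some function `g`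
(`Pool/Agent/U189/MG/Abs.lean`), so that `w + E H / M` is effective for all `M`, up to `1 / M`.
-/

set_option autoImplicit false

open FF MvPolynomial Pool.Agent.W602.GT

namespace Pool.Agent.Results.MP_66b48b_ag.NormalCrossingReal

open Pool.Agent.Results.MP_89a3f8_ag.TerminationOfFlips (IsSection)
open Pool.Agent.U660.MD (coneOf)
open Pool.Agent.U189.ND Pool.Agent.U189.MG

/-- **Real pseudo-effective combinations are effective.** Let `K` be the function field of an abelian
cover `Y` of the projective `n`-space which is branched along `n + 1` hypersurfaces `F k = 0` with normal
crossings, `X` the toroidal modification of `Y` which is given by `fan`, and `D i`, `i < p`, toroidal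
`ℚ`-Cartier divisors on `X` with the degrees `β i` and the coefficients `c i`. The cone of the
pseudo-effective real combinations of the `D i` is spanned by finitely many integral combinations which
have nonzero sections. -/
theorem result (n R p : ℕ) (hn : 1 ≤ n) (d : Fin (n + 1) → ℕ) (hd : ∀ k, 1 ≤ d k)
    (F : Fin (n + 1) → MvPolynomial (Fin (n + 1)) ℂ) (hF : ∀ k, (F k).IsHomogeneous (d k))
    (hs : NormalCrossings F) (m : Fin R → ℕ) (hm : ∀ j, 1 ≤ m j) (a : Fin R → Fin (n + 1) → ℕ)
    (hdiv : ∀ j, m j ∣ ∑ k, a j k * d k)
    (K : Type) [Field K] [Algebra ℂ K] (x : Fin (n + 1) → K) (hx0 : x 0 ≠ 0)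
    (hbas : IsTranscendenceBasis ℂ (affine x)) (z : Fin R → K)
    (hz : ∀ j, z j ^ m j = ∏ k, (aeval x (F k) / x 0 ^ d k) ^ a j k)
    (hgen : IntermediateField.adjoin ℂ (Set.range (affine x) ∪ Set.range z) = ⊤)
    (fan : Finset (Finset (Fin (n + 1) → ℕ))) (hfan : IsFan m a fan)
    (c : Fin p → (Fin (n + 1) → ℕ) → ℚ) (hc0 : ∀ i, c i 0 = 0) (β : Fin p → ℤ)
    (u : Finset (Fin (n + 1) → ℕ) → Fin p → Fin (n + 1) → ℚ)
    (hlin : ∀ σ ∈ fan, ∀ i v, Admissible m a v → InCone σ v → - c i v = ∑ k, u σ i k * v k)
    (δ : Fin p → Place ℂ K → ℚ) (hδ : ∀ i P, δ i P = coefficient F d x (c i) (β i) P) :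
    ∃ (B : ℕ) (h : Fin B → Fin p → ℤ), (∀ b, ∃ s : K, s ≠ 0 ∧ IsSection n δ (h b) s) ∧
      {w | IsPseudoeffectiveUpTo n δ w} = coneOf h :=
  psef_cone hx0 hbas (cox_ext n R p hn d hd F hF hs m hm a hdiv K x hx0 hbas z hz hgen fan hfan c
    hc0 β u hlin δ hδ)

end Pool.Agent.Results.MP_66b48b_ag.NormalCrossingReal
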