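import Pool.Agent.U189.MG.AbsG

/-!
# Real pseudo-effective classes are effective on the toroidal models of covers of products of
# projective spaces

**The varieties.** Let `F i` be a form of degree `d i` in `n i + 1` variables whose zero set in the
projective `n i`-space is a smooth hypersurface, and let `H i` be the cyclic hypersurface
`w ^ (d i) = F i` in the projective `(n i + 1)`-space. Let `Y` be a quotient `(H 1 × ... × H r) / G`, where
`G` is any group of diagonal automorphisms `w i ↦ ζ i * w i`, `ζ i ^ (d i) = 1`: an abelian cover of the
product of the projective `n i`-spaces which is branched along the hypersurfaces `F i = 0` of the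
factors. Its function field `K` is generated by the affine coordinates `x i j / x i 0` and by roots `z j`,
`z j ^ (m j) = ∏ i, (F i (x i) / x i 0 ^ (d i)) ^ (a j i)`, where `m j` divides `a j i * d i`. `X` is the
toroidal modification of `Y` which is given by `fan`, and `D 1, ..., D p` are toroidal `ℚ`-Cartier divisors
on `X`; the coefficients of their pullbacks at the prime divisors `P` over `X` are the `δ i P`. See
`Pool.Agent.Results.MP_89a3f8_ag.TerminationOfFlips`, whose definitions (`Smooth`, `Admissible`,
`InCone`, `IsFan`, `affine`, `minimalOrder`, `multiplicities`, `coefficient`, `IsSection`,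
`BasePointFree`, `Semiample`, `IsSmallModification`) are used here. If all `n i ≥ 3` and if the `D i`
generate the toroidal divisors of a `ℚ`-factorial `X` then all divisors on `X` are rational combinations of
the `D i` up to `ℚ`-linear equivalence (Lefschetz; this remark is not used and not proved here). There is
no condition on the dimensions and the degrees.
`X` can be any toroidal modification which is a projective (or only a complete) variety; no combination
of the `D i` is assumed to be ample.

**The pairs.** Let `(X, Δ)` be a pair, `Δ` an effective `ℝ`-divisor, such that `K_X + Δ` is a real combination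
`∑ i, w i * D i`. For instance `(X, Δ)` is a toroidal log canonical pair with real coefficients: `Δ` is a
combination with real coefficients in `[0, 1]` of the prime divisors of the boundary of `X` (`K_X` plus the
reduced boundary of `X` is `∑ i, (d i - n i - 1) * H i`, where `H i` is the hyperplane class of the `i`-th
factor), and `K_X + Δ` is `ℝ`-Cartier. If all `n i ≥ 3` and if the `D i` generate the toroidal divisors of a
`ℚ`-factorial `X`, then every pair on `X` has such a class (see above).

**Pseudo-effective combinations.** `IsPseudoeffectiveUpTo`: there is a divisor `A` on a model of `X`,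
generated by finitely many rational functions, such that for every `M ≥ 1` the combination
`w + A / M` is effective, up to a change of the coefficients by at most `1 / M`. All pseudo-effective
combinations have this property: take an ample `A` such that also `A ± D i` are ample.

**The theorem.** The cone of the pseudo-effective real combinations is spanned by finitely many integral
combinations which have nonzero sections. So for all pairs `(X, Δ)` as above with `K_X + Δ` pseudo-effective,
`K_X + Δ` is `ℝ`-linearly equivalent to the effective divisor `∑ b, t b * div (s b)`, where
`w = ∑ b, t b * h b`, `t b ≥ 0`, and `s b` is a section of `h b`. There is no condition on the dimensions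
`n i` and the degrees `d i`, and `K_X + Δ` need not be big or nef, nor `Δ` big.

The case of the `K_X + Δ` with rational coefficients of toroidal log canonical pairs is in
`MP_badc2d_ag.ToroidalPairs`; `MP_66b48b_ag.NormalCrossingReal` is the same statement for another class
of varieties `Y`: covers of one projective space which are branched along several hypersurfaces with
normal crossings. Here `Y` can be a product, and the Iitaka fibrations of the `K_X + Δ` can be fibrations
over the factors.

**Proof.** The Cox ring of the `D i` together with the sum `H` of the hyperplane classes of the factors is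
finitely generated (`Q57.CX.main_cox`), so the effective cone of these classes is closed. A finite set of
rational functions has order at least `- E * H - div g` for some number `E` and some function `g`
(`Pool/Agent/U189/MG/AbsG.lean`), so that `w + E H / M` is effective for all `M`, up to `1 / M`.
-/

set_option autoImplicit false

open FF MvPolynomial Pool.Agent.W602.GT

namespace Pool.Agent.Results.MP_66b48b_ag.ProductCoversReal

open Pool.Agent.Results.MP_89a3f8_ag.TerminationOfFlips
open Pool.Agent.U660.MD (coneOf)
open Pool.Agent.U189.MG (IsPseudoeffectiveUpTo)

/-- **Real pseudo-effective combinations are effective.** Let `K` be the function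
field of an abelian cover `Y` of the product of the projective `n i`-spaces which is branched along smooth
hypersurfaces `F i = 0` of the factors, `X` the toroidal modification of `Y` which is given by `fan`, and
`D i`, `i < p`, toroidal `ℚ`-Cartier divisors on `X` with the degrees `β i t` and the coefficients `c i`. The cone of the
pseudo-effective real combinations of the `D i` is spanned by finitely many integral combinations which
have nonzero sections. -/
theorem result (r N R p : ℕ) (n d : Fin r → ℕ) (hr : 1 ≤ r) (hn : ∀ i, 1 ≤ n i)
    (hd : ∀ i, 1 ≤ d i) (hN : N = ∑ i, n i)
    (F : ∀ i, MvPolynomial (Fin (n i + 1)) ℂ) (hF : ∀ i, (F i).IsHomogeneous (d i))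
    (hs : ∀ i, Smooth (F i)) (m : Fin R → ℕ) (hm : ∀ j, 1 ≤ m j) (a : Fin R → Fin r → ℕ)
    (hdiv : ∀ j i, m j ∣ a j i * d i)
    (K : Type) [Field K] [Algebra ℂ K] (x : ∀ i, Fin (n i + 1) → K) (hx0 : ∀ i, x i 0 ≠ 0)
    (hbas : IsTranscendenceBasis ℂ (affine x)) (z : Fin R → K)
    (hz : ∀ j, z j ^ m j = ∏ i, (aeval (x i) (F i) / x i 0 ^ d i) ^ a j i)
    (hgen : IntermediateField.adjoin ℂ (Set.range (affine x) ∪ Set.range z) = ⊤)
    (fan : Finset (Finset (Fin r → ℕ))) (hfan : IsFan m a fan)
    (c : Fin p → (Fin r → ℕ) → ℚ) (hc0 : ∀ i, c i 0 = 0) (β : Fin p → Fin r → ℤ)
    (u : Finset (Fin r → ℕ) → Fin p → Fin r → ℚ)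
    (hlin : ∀ σ ∈ fan, ∀ i v, Admissible m a v → InCone σ v → - c i v = ∑ k, u σ i k * v k)
    (δ : Fin p → Place ℂ K → ℚ) (hδ : ∀ i P, δ i P = coefficient F d x (c i) (β i) P) :
    ∃ (B : ℕ) (h : Fin B → Fin p → ℤ), (∀ b, ∃ s : K, s ≠ 0 ∧ IsSection N δ (h b) s) ∧
      {w | IsPseudoeffectiveUpTo N δ w} = coneOf h :=
  Pool.Agent.U189.MG.G.psef_cone (fun S => Pool.Agent.U189.MG.PB.absorb hx0 hbas S)
    (Pool.Agent.U189.MG.PB.cox_ext r N R p n d hr hn hd hN F hF hs m hm a hdiv K x hx0 hbas z hz hgen
      fan hfan c hc0 β u hlin δ hδ)

end Pool.Agent.Results.MP_66b48b_ag.ProductCoversReal
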