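import Pool.Agent.U976.TBd.RD4

/-!
# Nonvanishing for pairs with real coefficients on toric bundles over quotients of complex tori

Let `X = V / Γ` be the quotient of a complex torus of any dimension by any finite group; the group may
contain reflections, so that `K_X` may be negative (for instance `X` may be a projective space or any
other rational quotient of an abelian variety). Let `Y → X` be a toric bundle: all fibres are the same
smooth complete toric variety, of any dimension, and the twists `c i` are arbitrary line bundles on `X`.
(`Y` is projective if `X` is algebraic and the fan is projective.) Let `D_1, ..., D_r` be any effective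
Cartier divisors on `Y`, given by sections `F_j` of line bundles `O_Y(d_j; M_j)`, and let
`B = ∑ b_j D_j`, with real coefficients `b_j ≥ 0`, such that the pair `(Y, B)` is log canonical, or only:
all torus invariant prime divisors over the general fibre of `Y → X` have discrepancy at least `-1`.

The theorem: `K_Y + B` is pseudo-effective if and only if it is `ℝ`-linearly equivalent to an effective
`ℝ`-divisor; more precisely `K_Y + B = ∑ t_k (m_k K_Y + ∑ w_{k j} D_j)` with `t_k > 0` real, integers
`m_k ≥ 1` and `w_{k j} ≥ 0`, `∑ t_k m_k = 1`, and all the divisors in brackets `ℚ`-effective. This is so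
if and only if there is a real effective torus invariant divisor `∑ β_i D_i` in the class of the
restriction of `K_Y + B` to the fibres such that the class `K_Y + B - ∑ β_i D_i` on `X` is nef. If
`V → X` is unramified in codimension one (`K_X` is torsion, for instance `X` is an abelian variety), it
is so if and only if the restriction of `K_Y + B` to the fibres is effective.

The proof. If `K_Y + B` is pseudo-effective, a limit of the real combinations of the exponents of the
sections is a real exponent `β ≥ 0` in the class of `K_Y + B`, and for each reflection of `Γ` a linear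
inequality with integral coefficients holds for `β` and `b` (the polytope of the fan is bounded). By the
condition on the discrepancies and a separation argument with real coefficients `β + 1` is in the sum of
the Newton polytopes of the `F_j`, multiplied by `b_j`; the corresponding convex combinations are further
real variables. This gives a real vector in a rational polyhedral cone, hence a sum of positive real
multiples of integral vectors in it. Each of them gives weights `w_j`, an integer `m ≥ 1` and an
effective invariant divisor `β'` in the class of `m K_Y + ∑ w_j D_j`, such that the line bundle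
`m K_Y + ∑ w_j D_j - ∑ β'_i D_i` on `X` has a log pluricanonical divisor, a product of powers of
coefficients of the `F_j`. Its Chern form is nonnegative in the directions parallel to the mirrors, and
in the directions of the roots by the linear inequalities, so it is nef, and abundance for pairs on
torus quotients gives sections.

`IsTorusQuotient` and `LineBundle` are defined in `Pool.Agent.W594.SYZ.Defs2`; `IsChernForm` in
`Pool.Agent.W594.SYZ.TQDefs`; `IsRamification` in `Pool.Agent.TH735.AQ.MirDefs`; `IsSmoothFan`,
`LinEquiv` and `IsSection` in `Pool.Agent.Q47.TB.Defs`; `IsCanonicalBundle` and `RealLC` in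
`Pool.Agent.U976.TBd.RDDefs`; `PieceEffective`, `RealEffective` and `RealPsef` in
`Pool.Agent.U976.TBd.RDDefs2`.
-/

set_option autoImplicit false

namespace Pool.Agent.Results.MP_66b48b_ag.ToricBundlesReal

open Pool.Agent.W594.SYZ2 Pool.Agent.TH735.AQ Q47.TB Pool.Agent.U976.TBd MvPolynomial

/-- Let `Y` be the toric bundle with the fan `u`, `S` and the twists `c i` over the torus quotient
`X = V / Γ`, with the canonical bundle `O_Y(-1, ..., -1; K)`, let `D_j` be the divisor of the section
`F j` of `O_Y(d j; M j)`, and let `b j ≥ 0` be real numbers such that the torus invariant prime divisors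
over the general fibre have discrepancy at least `-1` for the pair `(Y, ∑ b_j D_j)`. Let `HK`, `HM j` and
`Hc i` be the Chern forms of `K`, `M j` and `c i`.

(1) `K_Y + ∑ b_j D_j` is pseudo-effective if and only if it is `ℝ`-linearly equivalent to an effective
`ℝ`-divisor.
(2) This is so if and only if for some real effective invariant divisor `∑ β_i D_i` in its class on the
fibres the class `c_1(K) + ∑ b_j c_1(M_j) - ∑ β_i c_1(c_i)` on `X` is nef.
(3) If `V → X` is unramified in codimension one, this is so if and only if its class on the fibres
contains a real effective invariant divisor. -/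
theorem result {V : Type*} [NormedAddCommGroup V] [NormedSpace ℂ V] [FiniteDimensional ℂ V]
    (Γ : Subgroup (V ≃ᵃ[ℂ] V)) (hΓ : IsTorusQuotient Γ) (ρ : V → ℂ) (hρ : IsRamification Γ ρ)
    {ι : Type*} [Fintype ι] {n r : ℕ} (u : ι → Fin n → ℤ) (S : Set (Set ι)) (hS : IsSmoothFan u S)
    (c : ι → LineBundle Γ) (Hc : ι → V → V → ℂ) (hc : ∀ i, IsChernForm (c i) (Hc i))
    (K : LineBundle Γ) (hK : IsCanonicalBundle c ρ K) (HK : V → V → ℂ) (hHK : IsChernForm K HK)
    (d : Fin r → ι → ℤ) (M : Fin r → LineBundle Γ) (HM : Fin r → V → V → ℂ)
    (hM : ∀ j, IsChernForm (M j) (HM j))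
    (F : Fin r → V → MvPolynomial ι ℂ) (hF : ∀ j, IsSection u c (d j) (M j).e (F j))
    (b : Fin r → ℝ) (hb : ∀ j, 0 ≤ b j) (hlc : RealLC S F b) :
    (RealPsef u c HK d HM b ↔ RealEffective u c K d M b) ∧
    (RealEffective u c K d M b ↔ ∃ (β : ι → ℝ) (q : Fin n → ℝ), (∀ i, 0 ≤ β i) ∧
      (∀ i, β i = ∑ j, b j * d j i - 1 + ∑ l, q l * u i l) ∧
      ∀ v, 0 ≤ (HK v v).re + ∑ j, b j * (HM j v v).re - ∑ i, β i * (Hc i v v).re) ∧
    ((∀ v, ρ v ≠ 0) → (RealEffective u c K d M b ↔ ∃ (β : ι → ℝ) (q : Fin n → ℝ),
      (∀ i, 0 ≤ β i) ∧ ∀ i, β i = ∑ j, b j * d j i - 1 + ∑ l, q l * u i l)) :=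
  real_all hΓ hρ hS hc hK hHK hM hF hb hlc

end Pool.Agent.Results.MP_66b48b_ag.ToricBundlesReal
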